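import Pool.Agent.H369.AS.Stm

/-! The nodal curve over the big field and its sections (assembly). -/

set_option autoImplicit false

namespace Pool.Agent.H30.AS

open TensorProduct Pool.Agent.TH549.CK Pool.Agent.H369.TH Pool.Agent.H369.CFG Pool.Agent.H369.SM
open Pool.Agent.H369.PL Pool.Agent.H369.RE Pool.Agent.H369.CB Pool.Agent.H369.AS

/-- the Hasse derivatives commute with the extension of scalars -/
theorem mapL_hasse (K Ω : Type) [Field K] [Field Ω] [Algebra K Ω] (j : ℕ) (f : LaurentSeries K) :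
    P10.mapL K Ω (LaurentSeries.hasseDeriv K j f) = LaurentSeries.hasseDeriv Ω j (P10.mapL K Ω f) := by
  ext l
  rw [P10.coeff_mapL, LaurentSeries.hasseDeriv_coeff, LaurentSeries.hasseDeriv_coeff, P10.coeff_mapL,
    map_zsmul]

section basis
variable {Γ K : Type} [AddCommGroup Γ] [LinearOrder Γ] [IsOrderedAddMonoid Γ] [Field K]

theorem TL_smul (a : Pt Γ K) (c : HG Γ K) (f : Ent Γ K) : TL a (c • f) = HahnSeries.C c * TL a f := by
  rw [TL, TL, Pool.Agent.H369.TH.smul_def', map_mul, T_cst, PowerSeries.coe_mul]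
  rw [show ((PowerSeries.C c : PowerSeries (HG Γ K)) : LaurentSeries (HG Γ K)) = HahnSeries.C c from
    PowerSeries.coe_C c]

theorem TL_inj (h2 : S_T) [CharZero K] (a : Pt Γ K) (f : Ent Γ K) (h : TL a f = 0) : f = 0 := by
  have h1 : T a f = 0 := by
    have h3 : ((T a f : PowerSeries (HG Γ K)) : LaurentSeries (HG Γ K)) = ((0 : PowerSeries (HG Γ K)) :
        LaurentSeries (HG Γ K)) := by
      rw [PowerSeries.coe_zero]; exact h
    exact HahnSeries.ofPowerSeries_injective h3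
  apply (h2 Γ K).1 a
  rw [h1, map_zero]

omit [LinearOrder Γ] [IsOrderedAddMonoid Γ] [Field K] [AddCommGroup Γ] in
theorem exists_fam {k M : Type} [Field k] [AddCommGroup M] [Module k M] (V : Submodule k M) (n : ℕ)
    (hn : 0 < n) (h : Module.finrank k V = n) :
    ∃ f : Fin n → M, LinearIndependent k f ∧ ∀ a, f a ∈ V := by
  have : Module.Finite k V := Module.finite_of_finrank_pos (by rw [h]; exact hn)
  let b := Module.finBasisOfFinrankEq k V h
  exact ⟨fun a => (b a : M), b.linearIndependent.map' (Submodule.subtype _) (Submodule.ker_subtype _),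
    fun a => (b a).2⟩

omit [LinearOrder Γ] [IsOrderedAddMonoid Γ] [Field K] [AddCommGroup Γ] in
theorem span_fam {k M : Type} [Field k] [AddCommGroup M] [Module k M] (V : Submodule k M) (n : ℕ)
    (hn : 0 < n) (h : Module.finrank k V = n) (f : Fin n → M) (hf : LinearIndependent k f)
    (hV : ∀ a, f a ∈ V) (g : M) (hg : g ∈ V) : ∃ c : Fin n → k, g = ∑ a, c a • f a := by
  have hlin' : LinearIndependent k (fun a => (⟨f a, hV a⟩ : V)) := by
    apply LinearIndependent.of_comp V.subtype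
    exact hf
  have : Nonempty (Fin n) := ⟨⟨0, hn⟩⟩
  let b' := basisOfLinearIndependentOfCardEqFinrank hlin' (by rw [Fintype.card_fin, h])
  refine ⟨fun a => b'.repr ⟨g, hg⟩ a, ?_⟩
  have h8 := b'.sum_repr ⟨g, hg⟩
  have h9 := congrArg (fun z : V => (z : M)) h8
  have h10 : ∀ a, (b' a : M) = f a := by
    intro a
    have h11 : b' a = (⟨f a, hV a⟩ : V) := by
      show (basisOfLinearIndependentOfCardEqFinrank hlin' _) a = _
      rw [coe_basisOfLinearIndependentOfCardEqFinrank]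
    rw [h11]
  simp only [AddSubmonoidClass.coe_finsetSum, Submodule.coe_smul, h10] at h9
  exact h9.symm

omit [LinearOrder Γ] [IsOrderedAddMonoid Γ] [Field K] [AddCommGroup Γ] in
theorem span_Lp {k : Type} [Field k] (R : Subalgebra k (LaurentSeries k)) (n : ℕ)
    (hn : 0 < n) (h : Module.finrank k (Lp R n) = n) (f : Fin n → R) (hf : LinearIndependent k f)
    (hV : ∀ a, f a ∈ Lp R n) (g : R) (hg : g ∈ Lp R n) : ∃ c : Fin n → k, g = ∑ a, c a • f a :=
  span_fam (Lp R n) n hn h f hf hV g hg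

omit [LinearOrder Γ] [IsOrderedAddMonoid Γ] [Field K] [AddCommGroup Γ] in
theorem coe_smul {k : Type} [Field k] (R : Subalgebra k (LaurentSeries k)) (c : k) (f : R) :
    ((c • f : R) : LaurentSeries k) = HahnSeries.C c * (f : LaurentSeries k) := by
  rw [Subalgebra.coe_smul, Algebra.smul_def]
  have h2 : algebraMap k (LaurentSeries k) c = HahnSeries.C c := LaurentSeries.algebraMap_apply k c
  rw [h2]

omit [LinearOrder Γ] [IsOrderedAddMonoid Γ] [Field K] [AddCommGroup Γ] in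
theorem lin_of {k M : Type} [Field k] [AddCommGroup M] [Module k M]
    (R : Subalgebra k (LaurentSeries k)) (n : ℕ) (f : Fin n → M) (hf : LinearIndependent k f)
    (t : M → LaurentSeries k) (hadd : ∀ x y, t (x + y) = t x + t y) (h0 : t 0 = 0)
    (hs : ∀ (c : k) (x : M), t (c • x) = HahnSeries.C c * t x) (hi : ∀ x, t x = 0 → x = 0)
    (z : LaurentSeries k) (h : Fin n → R) (hh : ∀ a, (h a : LaurentSeries k) * z = t (f a)) :
    LinearIndependent k h := by
  rw [Fintype.linearIndependent_iff] at hf ⊢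
  intro c hc
  apply hf
  apply hi
  have h1 : ∀ s : Finset (Fin n), t (∑ a ∈ s, c a • f a) = ((∑ a ∈ s, c a • h a : R) : LaurentSeries k) * z := by
    intro s
    induction s using Finset.induction_on with
    | empty => simp [h0]
    | insert i s his ih =>
      rw [Finset.sum_insert his, Finset.sum_insert his, hadd, ih, hs, ← hh, Subalgebra.coe_add, coe_smul]
      ring
  rw [h1, hc, ZeroMemClass.coe_zero, zero_mul]

/-- the functions with poles of order at most `n` -/
theorem exists_basis (h2 : S_T) (h3 : S_Th) (h4 : S_fr) [CharZero K] (P : Γ) (hP : Big P)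
    (o : Pt Γ K) (n : ℕ) (hn : 0 < n) :
    ∃ (f : Fin n → Ent Γ K) (h : Fin n → R1 P o), LinearIndependent (HG Γ K) f ∧
      (∀ a, FR P o n (f a) (h a)) ∧ (∀ a, h a ∈ Lp (R1 P o) n) ∧ LinearIndependent (HG Γ K) h ∧
      ∀ g ∈ Lp (R1 P o) n, ∃ c : Fin n → HG Γ K, g = ∑ a, c a • h a := by
  have hfin : Module.finrank (HG Γ K) (Th P (n : ℤ) (ng o ^ n : Pt Γ K)) = n :=
    (h3 Γ K P hP).2.2.2.2.1 n _ hn
  obtain ⟨f, hf, hfV⟩ := exists_fam (Th P (n : ℤ) (ng o ^ n : Pt Γ K)) n hn hfin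
  have hex := fun a => (h4 Γ K P hP o).2.1 n (f a) (hfV a)
  choose h hh using hex
  have hmem : ∀ a, h a ∈ Lp (R1 P o) n := fun a => ((h4 Γ K P hP o).2.2.1 n (h a)).2 ⟨_, hh a⟩
  have hlin : LinearIndependent (HG Γ K) h := by
    refine lin_of (R1 P o) n f hf (TL o) ?_ ?_ ?_ (fun x hx => TL_inj h2 o x hx)
      (TL o (theta P o) ^ n) h (fun a => (hh a).2)
    · intro x y
      rw [TL, TL, TL, map_add, PowerSeries.coe_add]
    · rw [TL, map_zero, PowerSeries.coe_zero]
    · intro c x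
      exact TL_smul o c x
  refine ⟨f, h, hf, hh, hmem, hlin, ?_⟩
  exact fun g hg => span_Lp (R1 P o) n hn ((h4 Γ K P hP o).2.2.2 n hn) h hlin hmem g hg

end basis

theorem sjE_tmul {F 𝕂 P : Type} [Field F] [Field 𝕂] [Algebra F 𝕂] (C : Crv F 𝕂 P) (x : P) (j : ℕ)
    (f h : 𝕂) : sjE C x j (f ⊗ₜ[F] h) = LaurentSeries.hasseDeriv F j (C.E x f) * C.E x h := by
  unfold sjE
  rw [TensorProduct.lift.tmul]
  rfl

theorem nn_tmul {F 𝕂 P : Type} [Field F] [Field 𝕂] [Algebra F 𝕂] (C : Crv F 𝕂 P) (x y : P) (a b : ℤ)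
    (f h : 𝕂) : nn C x y a b (f ⊗ₜ[F] h) = (C.E x f).coeff a * (C.E y h).coeff b := by
  unfold nn
  rw [TensorProduct.lift.tmul]
  rfl

theorem charZero_HG {Γ K : Type} [AddCommGroup Γ] [LinearOrder Γ] [IsOrderedAddMonoid Γ] [Field K]
    [CharZero K] : CharZero (HG Γ K) :=
  charZero_of_injective_ringHom (f := (HahnSeries.C : K →+* HG Γ K)) HahnSeries.C_injective

/-- **AS7** -/
theorem lim (_h1 : S_rules) (h2 : S_T) (h3 : S_Th) (h4 : S_fr) (h5 : S_wf) (h6 : S_W) (h7 : S_nodes)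
    (h8 : S_PL) (h9 : S_desc) (h10 : S_conv) (h11 : S_bas) : S_lim := by
  intro Γ K _ _ _ _ _ τ A m ξ hξ y hy F _ _ _ _ _ hinj hcomp
  have hcz : CharZero (HG Γ K) := charZero_HG
  have hfin : ∀ n : ℕ, 0 < n → Module.finrank (HG Γ K) (Lp (R1 A.P (A.o : Pt Γ K)) n) = n :=
    (h4 Γ K A.P A.big A.o).2.2.2
  have hsm : IsSmoothCurve (ext (R1 A.P (A.o : Pt Γ K)) F) 1 := by
    obtain ⟨X, Y, c, e₁, e₂, e₃, hX, hX', hY, hY', hc, h12, h13, h23, hw⟩ :=
      h5 Γ K A.P A.hf A.big A.half A.o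
    exact h6 (HG Γ K) (R1 A.P (A.o : Pt Γ K)) hfin X Y c e₁ e₂ e₃ hX hX' hY hY' hc h12 h13 h23 hw F
  obtain ⟨ep, ex, e, hep, hex, hu, hc, hci, hel, her⟩ := h7 Γ K τ A m ξ hξ y hy F hinj hcomp
  obtain ⟨PP, C, o, nd, hnd, hndo, hRR, hEo, hEn, hreg⟩ := h8 F _ hsm (Fin m ⊕ Fin m) e hu hc hci
  have hN : Function.Injective (Sum.elim (fun i : Fin m => nd (Sum.inl i))
      (fun i : Fin m => nd (Sum.inr i))) := by
    have h12 : Sum.elim (fun i : Fin m => nd (Sum.inl i)) (fun i : Fin m => nd (Sum.inr i)) = nd := by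
      funext x
      cases x <;> rfl
    rw [h12]
    exact hnd
  refine ⟨PP, C, ⟨o, fun i => nd (Sum.inl i), fun i => nd (Sum.inr i), hN, fun i => hndo _,
    fun i => hndo _⟩, hRR, ?_⟩
  intro n γ H hn hH hHr hsj hnn
  obtain ⟨f, h, hf, hFR, hmem, hlin, hspan⟩ := exists_basis h2 h3 h4 A.P A.big (A.o : Pt Γ K) n hn
  obtain ⟨c, hc'⟩ := h11 (HG Γ K) (R1 A.P (A.o : Pt Γ K)) F PP C o hEo hreg n n h hspan hmem hlin H hHr
  have hcne : (fun p : Fin n × Fin n => c p.1 p.2) ≠ 0 := by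
    intro h0
    apply hH
    rw [hc']
    refine Finset.sum_eq_zero fun a _ => Finset.sum_eq_zero fun b _ => ?_
    have h12 : c a b = 0 := congrFun h0 (a, b)
    rw [h12, zero_smul]
  obtain ⟨c', hc'ne, hc'l⟩ := h9 (BB (HG Γ K)) F hinj (Fin n × Fin n) _ hcne
  have key : ∀ l : Fin n → Fin n → BB (HG Γ K), ∑ a, ∑ b, c a b * algebraMap _ F (l a b) = 0 →
      ∑ a, ∑ b, c' (a, b) * l a b = 0 := by
    intro l hl
    have h12 := hc'l (fun p => l p.1 p.2) (by rw [Fintype.sum_prod_type]; exact hl)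
    rw [Fintype.sum_prod_type] at h12
    exact h12
  have hp : ∀ (i : Fin m) (a' : ℕ) (g : R1 A.P (A.o : Pt Γ K)),
      (C.E (nd (Sum.inl i)) (algebraMap _ (FractionRing (ext (R1 A.P (A.o : Pt Γ K)) F))
        (up _ F g))).coeff (a' : ℤ) =
      algebraMap (BB (HG Γ K)) F (PowerSeries.C (PowerSeries.C (PowerSeries.coeff a' (ep i g)))) := by
    intro i a' g
    rw [hEn, PowerSeries.coeff_coe, if_neg (by omega), Int.natAbs_natCast, hel, PowerSeries.coeff_map,
      hcomp]
  have hq : ∀ (i : Fin m) (b' : ℕ) (g : R1 A.P (A.o : Pt Γ K)),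
      (C.E (nd (Sum.inr i)) (algebraMap _ (FractionRing (ext (R1 A.P (A.o : Pt Γ K)) F))
        (up _ F g))).coeff (b' : ℤ) =
      algebraMap (BB (HG Γ K)) F (PowerSeries.coeff b' (shf (A.ze ξ y i) (ex g))) := by
    intro i b' g
    rw [hEn, PowerSeries.coeff_coe, if_neg (by omega), Int.natAbs_natCast, her, PowerSeries.coeff_map]
  refine h10 Γ K τ A m ξ y n γ n f hf (fun a => (h a : LaurentSeries (HG Γ K))) hFR
    (fun i a => ep i (h a)) (fun i a => hep i n (f a) (h a) (hFR a)) (fun a => ex (h a))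
    (fun a => hex n (f a) (h a) (hFR a)) (fun a b => c' (a, b)) ?_ ?_ ?_ ?_
  · by_contra hne
    push Not at hne
    exact hc'ne (funext fun p => hne p.1 p.2)
  · intro j hj l
    apply key
    have h12 := hsj j hj
    rw [hc'] at h12
    simp only [map_sum, map_smul, sjE_tmul] at h12
    have h13 := congrArg (fun z : LaurentSeries F => z.coeff l) h12
    simp only [HahnSeries.coeff_sum, HahnSeries.coeff_smul, HahnSeries.coeff_zero, smul_eq_mul] at h13
    rw [← h13]
    refine Finset.sum_congr rfl fun a _ => Finset.sum_congr rfl fun b _ => ?_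
    rw [hEo, hEo]
    have h14 : ∀ a, ((up (R1 A.P (A.o : Pt Γ K)) F (h a) : ext (R1 A.P (A.o : Pt Γ K)) F) :
        LaurentSeries F) = P10.mapL (HG Γ K) F (h a : LaurentSeries (HG Γ K)) := fun a => rfl
    rw [h14, h14, ← mapL_hasse, ← map_mul, P10.coeff_mapL, hcomp]
  · intro i a' b' hab
    have h12 := (hnn i a' b' hab).1
    rw [hc'] at h12
    simp only [map_sum, map_smul, nn_tmul, smul_eq_mul, hp, hq, ← map_mul] at h12
    have h13 := key _ h12
    rw [← h13]
    refine Finset.sum_congr rfl fun a _ => Finset.sum_congr rfl fun b _ => ?_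
    rw [mul_assoc]
  · intro i a' b' hab
    have h12 := (hnn i b' a' (by omega)).2
    rw [hc'] at h12
    simp only [map_sum, map_smul, nn_tmul, smul_eq_mul, hp, hq, ← map_mul] at h12
    have h13 := key _ h12
    rw [← h13]
    refine Finset.sum_congr rfl fun a _ => Finset.sum_congr rfl fun b _ => ?_
    ring

end Pool.Agent.H30.AS
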